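import Pool.Agent.Work.MP_96dc1b_co.C.Up
import Pool.Agent.Work.MP_96dc1b_co.C.Aff
import Pool.Agent.Work.MP_96dc1b_co.Parked.SharpOrder

namespace Pool.Agent.Results.MP_96dc1b_co.SharpConstant

open Pool.Agent.Work.MP_96dc1b_co

/-- Two-sided bound for the largest `r`-dynamic chromatic number of a graph of treewidth at most
`k`: it is asymptotic to `r √k + k` for `r ≥ 2 √k`. -/
theorem result (ε : ℝ) (hε : 0 < ε) : ∃ k₀ : ℕ, ∀ k r : ℕ, 1 ≤ k → 1 ≤ r →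
    (∀ (V : Type) [Fintype V] (G : SimpleGraph V), treewidth G ≤ k →
      (chiDyn G r : ℝ) ≤ r * √((k : ℝ) + 1) + k + 2) ∧
    ∃ (V : Type) (_ : Fintype V) (G : SimpleGraph V), treewidth G ≤ k ∧
      max ((k : ℝ) + 1) ((r * √(k : ℝ) + k) / 12) ≤ (chiDyn G r : ℝ) ∧
      (k₀ ≤ k → 4 * k ≤ r ^ 2 → (1 - ε) * (r * √(k : ℝ) + k) ≤ (chiDyn G r : ℝ)) := by
  obtain ⟨k₀, hk₀⟩ := C.exists_asym hε
  refine ⟨k₀, fun k r hk hr => ⟨fun V _ G hG => C.chiDyn_le_sharp G r hG, ?_⟩⟩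
  have h1 : ∃ (V : Type) (_ : Fintype V) (G : SimpleGraph V), treewidth G ≤ k ∧
      max ((k : ℝ) + 1) ((r * √(k : ℝ) + k) / 12) ≤ (chiDyn G r : ℝ) := by
    rcases max_choice ((k : ℝ) + 1) ((r * √(k : ℝ) + k) / 12) with h | h
    · rw [h]
      exact ⟨_, inferInstance, ⊤, treewidth_top k, by exact_mod_cast le_chiDyn_top k r⟩
    · rw [h]
      exact (Parked.sharpOrder k r hk hr).2
  obtain ⟨V, _, G, hG, hχ⟩ := h1
  by_cases hc : k₀ ≤ k ∧ 4 * k ≤ r ^ 2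
  · obtain ⟨V', _, G', hG', hχ'⟩ := hk₀ k r hc.1 hc.2
    rcases le_total (chiDyn G r : ℝ) (chiDyn G' r) with h | h
    · exact ⟨V', inferInstance, G', hG', hχ.trans h, fun _ _ => hχ'⟩
    · exact ⟨V, inferInstance, G, hG, hχ, fun _ _ => hχ'.trans h⟩
  · exact ⟨V, inferInstance, G, hG, hχ, fun h1 h2 => absurd ⟨h1, h2⟩ hc⟩

end Pool.Agent.Results.MP_96dc1b_co.SharpConstant
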